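import Pool.Agent.J6H90.DC.Final

/-!
The levels of the complex: de Caen's recursion for the sets with `k` elements.
-/

set_option autoImplicit false
set_option linter.unusedSectionVars false
set_option linter.unusedVariables false

namespace Pool.Agent.J6H90.DL

open Finset Pool.Agent.J6H90.DC

section
variable {V : Type} [Fintype V] [DecidableEq V]
variable (I : Finset V → Prop)

/-- the sum over the members with `k` elements -/
noncomputable def lv (k : ℕ) (f : Finset V → ℝ) : ℝ :=
  ∑ S : Finset V, ind (I S ∧ S.card = k) * f S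

noncomputable def lN (k : ℕ) : ℝ := lv I k (fun _ => 1)
noncomputable def lA (k : ℕ) : ℝ := lv I k (fun S => ∑ x, ind (al I S x))
noncomputable def lB (k : ℕ) : ℝ := lv I k (fun S => ∑ x, ind (bl I S x))
noncomputable def lQ (k : ℕ) : ℝ := lv I k (fun S => (∑ x, ind (al I S x)) ^ 2)
noncomputable def lb (k : ℕ) : ℝ := lv I k (fun S => ∑ x, dg I S x)
noncomputable def lP (k : ℕ) : ℝ := lv I k (fun S => ∑ x, ∑ y, ind (pr I S x y))

variable {I} {R : ℕ}

theorem lv_eq (k : ℕ) (f : Finset V → ℝ) :
    lv I k f = br I 1 (fun S => ind (S.card = k) * f S) := by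
  unfold lv br
  refine Finset.sum_congr rfl fun S _ => ?_
  rw [one_pow, one_mul, ← mul_assoc, ind_mul]

theorem lv_congr {k : ℕ} {f g : Finset V → ℝ} (h : ∀ S, I S → S.card = k → f S = g S) :
    lv I k f = lv I k g := by
  unfold lv
  exact Finset.sum_congr rfl fun S _ => ind_mul_congr fun hS => h S hS.1 hS.2

theorem lv_mono {k : ℕ} {f g : Finset V → ℝ} (h : ∀ S, I S → S.card = k → f S ≤ g S) :
    lv I k f ≤ lv I k g := by
  unfold lv
  exact Finset.sum_le_sum fun S _ => ind_mul_mono fun hS => h S hS.1 hS.2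

theorem lv_nonneg {k : ℕ} {f : Finset V → ℝ} (h : ∀ S, I S → S.card = k → 0 ≤ f S) :
    0 ≤ lv I k f := by
  unfold lv
  refine Finset.sum_nonneg fun S _ => ?_
  by_cases hS : I S ∧ S.card = k
  · rw [ind_true hS, one_mul]; exact h S hS.1 hS.2
  · rw [ind_false hS, zero_mul]

theorem lv_add (k : ℕ) (f g : Finset V → ℝ) :
    lv I k (fun S => f S + g S) = lv I k f + lv I k g := by
  unfold lv
  rw [← Finset.sum_add_distrib]
  exact Finset.sum_congr rfl fun S _ => by ring

theorem lv_smul (k : ℕ) (c : ℝ) (f : Finset V → ℝ) : lv I k (fun S => c * f S) = c * lv I k f := by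
  unfold lv
  rw [Finset.mul_sum]
  exact Finset.sum_congr rfl fun S _ => by ring

theorem mecke_lv (hI : Cx R I) (k : ℕ) (F : Finset V → V → ℝ) :
    lv I (k + 1) (fun S => ∑ y, ind (y ∈ S) * F S y)
      = lv I k (fun S => ∑ y, ind (al I S y) * F (insert y S) y) := by
  have h := mecke hI (z := 1) (fun S y => ind (S.card = k + 1) * F S y)
  rw [lv_eq, lv_eq]
  have e1 : br I 1 (fun S => ind (S.card = k + 1) * ∑ y, ind (y ∈ S) * F S y)
      = br I 1 (fun S => ∑ y, ind (y ∈ S) * (ind (S.card = k + 1) * F S y)) := by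
    refine br_congr fun S _ => ?_
    rw [Finset.mul_sum]
    exact Finset.sum_congr rfl fun y _ => by ring
  rw [e1, h, one_mul]
  refine br_congr fun S _ => ?_
  rw [Finset.mul_sum]
  refine Finset.sum_congr rfl fun y _ => ?_
  by_cases hy : al I S y
  · rw [ind_true hy, one_mul, one_mul, card_insert_of_notMem hy.1,
      ind_congr (show (S.card + 1 = k + 1) ↔ (S.card = k) by omega)]
  · rw [ind_false hy]; ring

theorem lA_eq (hI : Cx R I) (k : ℕ) : lA I k = (k + 1) * lN I (k + 1) := by
  have h := mecke_lv hI k (fun _ _ => 1)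
  simp only [mul_one] at h
  unfold lA lN
  rw [← h, ← lv_smul]
  refine lv_congr fun S hS hk => ?_
  rw [sum_ind_mem, hk]; push_cast; ring

theorem l_total (hI : Cx R I) (k : ℕ) :
    (Fintype.card V : ℝ) * lN I k = k * lN I k + lA I k + lB I k := by
  unfold lN lA lB
  rw [← lv_smul, ← lv_smul, ← lv_add, ← lv_add]
  refine lv_congr fun S hS hk => ?_
  have hk' : (k : ℝ) = ∑ x, ind (x ∈ S) := by rw [sum_ind_mem, hk]
  rw [hk', mul_one, mul_one, ← Finset.sum_add_distrib, ← Finset.sum_add_distrib]
  have : ∀ x, ind (x ∈ S) + ind (al I S x) + ind (bl I S x) = 1 := by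
    intro x
    by_cases hx : x ∈ S
    · rw [ind_true hx, ind_false (fun h : al I S x => h.1 hx),
        ind_false (fun h : bl I S x => h.1 hx)]; norm_num
    · by_cases h2 : I (insert x S)
      · rw [ind_false hx, ind_true (show al I S x from ⟨hx, h2⟩),
          ind_false (fun h : bl I S x => h.2 h2)]; norm_num
      · rw [ind_false hx, ind_false (fun h : al I S x => h2 h.2),
          ind_true (show bl I S x from ⟨hx, h2⟩)]; norm_num
  rw [Finset.sum_congr rfl fun x _ => this x]
  simp

theorem lP_eq (hI : Cx R I) (k : ℕ) : lP I k = (k + 1) * lA I (k + 1) := by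
  have h := mecke_lv hI k (fun S _ => ∑ x, ind (al I S x))
  have e1 : lv I (k + 1) (fun S => ∑ y, ind (y ∈ S) * ∑ x, ind (al I S x))
      = (k + 1) * lA I (k + 1) := by
    unfold lA
    rw [← lv_smul]
    refine lv_congr fun S hS hk => ?_
    rw [← Finset.sum_mul, sum_ind_mem, hk]; push_cast; ring
  rw [← e1, h]
  unfold lP
  refine lv_congr fun S hS hk => ?_
  rw [Finset.sum_comm]
  refine Finset.sum_congr rfl fun y _ => ?_
  rw [Finset.mul_sum]
  refine Finset.sum_congr rfl fun x _ => ?_
  rw [ind_mul]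
  refine ind_congr ?_
  unfold pr al
  rw [mem_insert, not_or]
  constructor
  · rintro ⟨a, b, c, d⟩
    exact ⟨⟨b, hI.down (subset_insert _ _) d⟩, ⟨c, a⟩, d⟩
  · rintro ⟨⟨a, b⟩, ⟨c, d⟩, e⟩
    exact ⟨d, a, c, e⟩

theorem lQ_eq (hI : Cx R I) (k : ℕ) : lQ I k = lA I k + lP I k + lb I k := by
  unfold lQ lA lP lb
  rw [← lv_add, ← lv_add]
  refine lv_congr fun S hS hk => ?_
  have h := nonpr_sum hI S (fun _ _ => (1 : ℝ))
  simp only [mul_one] at h
  rw [pow_two, Finset.sum_mul_sum]
  have e : ∀ x y, ind (al I S x) * ind (al I S y)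
      = ind (pr I S x y) + ind (al I S x ∧ al I S y ∧ ¬ pr I S x y) := by
    intro x y
    rw [ind_mul]
    by_cases hp : pr I S x y
    · have hax : al I S x := ⟨hp.1, hI.down (insert_subset_insert x (subset_insert y S)) hp.2.2.2⟩
      have hay : al I S y := ⟨hp.2.1, hI.down (subset_insert x _) hp.2.2.2⟩
      rw [ind_true hp, ind_true (show al I S x ∧ al I S y from ⟨hax, hay⟩),
        ind_false (fun h : al I S x ∧ al I S y ∧ ¬ pr I S x y => h.2.2 hp), add_zero]
    · rw [ind_false hp, zero_add]
      exact ind_congr ⟨fun h => ⟨h.1, h.2, hp⟩, fun h => ⟨h.1, h.2.1⟩⟩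
  have e2 : ∑ x, ∑ y, ind (al I S x) * ind (al I S y)
      = ∑ x, ∑ y, ind (pr I S x y) + ∑ x, ∑ y, ind (al I S x ∧ al I S y ∧ ¬ pr I S x y) := by
    rw [← Finset.sum_add_distrib]
    refine Finset.sum_congr rfl fun x _ => ?_
    rw [← Finset.sum_add_distrib]
    exact Finset.sum_congr rfl fun y _ => e x y
  rw [e2, h]
  unfold dg
  ring

theorem lb_le (hI : Cx R I) (k : ℕ) : lb I k ≤ R * lB I (k + 1) := by
  have h := mecke_lv hI k
    (fun S x => ∑ w, ind (w ∉ S ∧ ¬ I (insert w S) ∧ I (insert w (S.erase x))))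
  have h1 : lv I k (fun S => ∑ y, ind (al I S y) *
      ∑ w, ind (w ∉ insert y S ∧ ¬ I (insert w (insert y S)) ∧ I (insert w ((insert y S).erase y))))
      = lb I k := by
    unfold lb
    refine lv_congr fun S hS hk => Finset.sum_congr rfl fun y _ => ?_
    unfold dg
    rw [Finset.mul_sum]
    refine Finset.sum_congr rfl fun w _ => ?_
    rw [ind_mul]
    refine ind_congr ?_
    constructor
    · rintro ⟨a, b, c, d⟩
      rw [erase_insert a.1] at d
      rw [mem_insert, not_or] at b
      exact ⟨fun h => b.1 h.symm, a, ⟨b.2, d⟩, by rw [Finset.insert_comm]; exact c⟩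
    · rintro ⟨a, b, c, d⟩
      refine ⟨b, ?_, ?_, ?_⟩
      · rw [mem_insert, not_or]; exact ⟨fun h => a h.symm, c.1⟩
      · rw [Finset.insert_comm]; exact d
      · rw [erase_insert b.1]; exact c.2
  rw [h1] at h
  rw [← h]
  unfold lB
  rw [← lv_smul]
  refine lv_mono fun S hS hk => ?_
  have e1 : ∀ x, ind (x ∈ S) * ∑ w, ind (w ∉ S ∧ ¬ I (insert w S) ∧ I (insert w (S.erase x)))
      = ∑ w, ind (bl I S w) * ind (x ∈ S ∧ I (insert w (S.erase x))) := by
    intro x
    rw [Finset.mul_sum]
    refine Finset.sum_congr rfl fun w _ => ?_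
    rw [ind_mul, ind_mul]
    refine ind_congr ?_
    unfold bl
    tauto
  rw [Finset.sum_congr rfl fun x _ => e1 x, Finset.sum_comm, Finset.mul_sum]
  refine Finset.sum_le_sum fun w _ => ?_
  rw [← Finset.mul_sum]
  by_cases hw : bl I S w
  · rw [ind_true hw, one_mul, mul_one]
    exact fc_le hI hS hw
  · rw [ind_false hw]; simp

theorem l_cs (k : ℕ) : lA I k ^ 2 ≤ lN I k * lQ I k := by
  have h := br_cs (I := I) (z := 1) zero_le_one
    (fun S => ind (S.card = k)) (fun S => ind (S.card = k) * ∑ x, ind (al I S x))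
  have e1 : br I 1 (fun S => ind (S.card = k) * (ind (S.card = k) * ∑ x, ind (al I S x)))
      = lA I k := by
    unfold lA
    rw [lv_eq]
    refine br_congr fun S _ => ?_
    rw [← mul_assoc, ind_sq]
  have e2 : br I 1 (fun S => ind (S.card = k) ^ 2) = lN I k := by
    unfold lN
    rw [lv_eq]
    refine br_congr fun S _ => ?_
    rw [pow_two, ind_sq, mul_one]
  have e3 : br I 1 (fun S => (ind (S.card = k) * ∑ x, ind (al I S x)) ^ 2) = lQ I k := by
    unfold lQ
    rw [lv_eq]
    refine br_congr fun S _ => ?_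
    rw [mul_pow, pow_two (ind _), ind_sq]
  rw [e1, e2, e3] at h
  exact h

theorem lN_nonneg (k : ℕ) : 0 ≤ lN I k := lv_nonneg fun _ _ _ => zero_le_one
theorem lA_nonneg (k : ℕ) : 0 ≤ lA I k :=
  lv_nonneg fun _ _ _ => Finset.sum_nonneg fun _ _ => ind_nonneg _
theorem lB_nonneg (k : ℕ) : 0 ≤ lB I k :=
  lv_nonneg fun _ _ _ => Finset.sum_nonneg fun _ _ => ind_nonneg _

/-- de Caen's recursion -/
theorem chain (hI : Cx R I) (k : ℕ) :
    ((k : ℝ) + 1 - R) * lB I (k + 1) * lN I k ≤ lA I k * lB I k := by
  have h1 := l_cs (I := I) k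
  rw [lQ_eq hI, lP_eq hI] at h1
  have h2 := lb_le hI k
  have h3 := l_total hI k
  have h4 := l_total hI (k + 1)
  have h5 := lA_eq hI k
  have hN := lN_nonneg (I := I) k
  push_cast at h4
  set n : ℝ := (Fintype.card V : ℝ)
  have h6 := mul_le_mul_of_nonneg_left h2 hN
  have e1 : lA I (k + 1) = (n - (k + 1)) * lN I (k + 1) - lB I (k + 1) := by linarith
  have e2 : ((k : ℝ) + 1) * lA I (k + 1) = (n - (k + 1)) * lA I k - (k + 1) * lB I (k + 1) := by
    rw [e1, h5]; ring
  rw [e2] at h1
  have e3 : n * lN I k - k * lN I k = lA I k + lB I k := by linarith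
  have e4 : lN I k * (lA I k + ((n - (k + 1)) * lA I k - (k + 1) * lB I (k + 1)) + lb I k)
      = lA I k * (n * lN I k - k * lN I k) - (k + 1) * lB I (k + 1) * lN I k + lN I k * lb I k := by
    ring
  rw [e4, e3] at h1
  nlinarith

/-- blocked points need `R` elements -/
theorem lB_zero (hI : Cx R I) {k : ℕ} (hk : k < R) : lB I k = 0 := by
  unfold lB lv
  refine Finset.sum_eq_zero fun S _ => ?_
  by_cases hS : I S ∧ S.card = k
  · have : ∑ x, ind (bl I S x) = 0 := by
      refine Finset.sum_eq_zero fun v _ => ind_false fun hv => ?_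
      obtain ⟨A, hA, hAc, _⟩ := hI.blk hS.1 hv.1 hv.2
      have := card_le_card hA
      omega
    show ind (I S ∧ S.card = k) * ∑ x, ind (bl I S x) = 0
    rw [this, mul_zero]
  · rw [ind_false hS, zero_mul]

theorem lB_le (hI : Cx R I) (k : ℕ) : lB I k ≤ (Fintype.card V : ℝ) * lN I k := by
  have h1 := l_total hI k
  have h2 := lA_nonneg (I := I) k
  have h3 : 0 ≤ (k : ℝ) * lN I k := mul_nonneg (Nat.cast_nonneg _) (lN_nonneg k)
  linarith

theorem choose_succ_mul' (k R : ℕ) (h : R ≤ k) :
    ((k : ℝ) + 1 - R) * ((k + 1).choose R : ℝ) = (k + 1) * (k.choose R : ℝ) := by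
  have h2 : (k + 1).choose R * (k + 1 - R) = (k + 1) * k.choose R := by
    rw [← Nat.choose_mul_succ_eq, mul_comm]
  have h3 : (((k + 1).choose R * (k + 1 - R) : ℕ) : ℝ) = (((k + 1) * k.choose R : ℕ) : ℝ) := by
    rw [h2]
  rw [Nat.cast_mul, Nat.cast_mul, Nat.cast_sub (by omega)] at h3
  push_cast at h3
  linarith

/-- the upper bound for the blocked points -/
theorem lB_upper (hI : Cx R I) {c : ℝ} (hc : 0 ≤ c) (h0 : lB I R ≤ c * lN I R) (k : ℕ) :
    lB I k ≤ c * (k.choose R : ℝ) * lN I k := by
  rcases lt_or_ge k R with hk | hk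
  · rw [lB_zero hI hk]
    exact mul_nonneg (mul_nonneg hc (Nat.cast_nonneg _)) (lN_nonneg k)
  · induction k, hk using Nat.le_induction with
    | base => rw [Nat.choose_self, Nat.cast_one, mul_one]; exact h0
    | succ k hk ih =>
      have hch := chain hI k
      have hA := lA_eq hI k
      have hNk := lN_nonneg (I := I) k
      have hN1 := lN_nonneg (I := I) (k + 1)
      have hkR : (R : ℝ) ≤ k := by exact_mod_cast hk
      rcases eq_or_lt_of_le hNk with h | h
      · -- no members
        have h1 := l_total hI k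
        rw [← h] at h1
        have h2 := lB_nonneg (I := I) k
        have h3 := lA_nonneg (I := I) k
        have h4 : lA I k = 0 := by linarith
        rw [hA] at h4
        have h5 : lN I (k + 1) = 0 := by
          rcases mul_eq_zero.1 h4 with h6 | h6
          · have : (0 : ℝ) < (k : ℝ) + 1 := by positivity
            linarith
          · exact h6
        have h6 := lB_le hI (k + 1)
        rw [h5] at h6 ⊢
        linarith
      · have h1 : ((k : ℝ) + 1 - R) * lB I (k + 1) * lN I k
            ≤ (k + 1) * lN I (k + 1) * (c * (k.choose R : ℝ) * lN I k) := by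
          refine le_trans hch ?_
          rw [hA]
          exact mul_le_mul_of_nonneg_left ih (by positivity)
        have h2 : ((k : ℝ) + 1 - R) * lB I (k + 1)
            ≤ ((k : ℝ) + 1 - R) * (c * ((k + 1).choose R : ℝ) * lN I (k + 1)) := by
          have h3 : ((k : ℝ) + 1 - R) * lB I (k + 1) * lN I k
              ≤ (((k : ℝ) + 1 - R) * (c * ((k + 1).choose R : ℝ) * lN I (k + 1))) * lN I k := by
            refine le_trans h1 (le_of_eq ?_)
            have := choose_succ_mul' k R hk
            calc (k + 1) * lN I (k + 1) * (c * (k.choose R : ℝ) * lN I k)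
                = c * lN I (k + 1) * lN I k * ((k + 1) * (k.choose R : ℝ)) := by ring
              _ = c * lN I (k + 1) * lN I k * (((k : ℝ) + 1 - R) * ((k + 1).choose R : ℝ)) := by
                  rw [this]
              _ = _ := by ring
          exact le_of_mul_le_mul_right h3 h
        exact le_of_mul_le_mul_left h2 (by linarith)

/-- no members of large size -/
theorem lN_zero {M k : ℕ} (hM : ∀ S, I S → S.card ≤ M) (hk : M < k) : lN I k = 0 := by
  unfold lN lv
  refine Finset.sum_eq_zero fun S _ => ?_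
  rw [ind_false (fun h : I S ∧ S.card = k => by have := hM S h.1; omega), zero_mul]

/-- the lower bound for the blocked points -/
theorem lB_lower (hI : Cx R I) {M : ℕ} (hM : ∀ S, I S → S.card ≤ M)
    (hn : (M : ℝ) ≤ (Fintype.card V : ℝ)) (k : ℕ) :
    ((Fintype.card V : ℝ) - M) * (k.choose R : ℝ) * lN I k ≤ (M.choose R : ℝ) * lB I k := by
  rcases lt_or_ge M k with hk | hk
  · rw [lN_zero hM hk]
    have := lB_nonneg (I := I) k
    rw [mul_zero]
    positivity
  · obtain ⟨j, hj⟩ : ∃ j, k + j = M := ⟨M - k, by omega⟩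
    induction j generalizing k with
    | zero =>
      have hkM : k = M := by omega
      subst hkM
      have h1 := lA_eq hI k
      have h2 : lN I (k + 1) = 0 := lN_zero hM (Nat.lt_succ_self _)
      have h3 := l_total hI k
      rw [h1, h2] at h3
      have h4 : lB I k = ((Fintype.card V : ℝ) - k) * lN I k := by linarith
      rw [h4]
      exact le_of_eq (by ring)
    | succ j ih =>
      have ih' := ih (k + 1) (by omega) (by omega)
      have hNk := lN_nonneg (I := I) k
      have hN1 := lN_nonneg (I := I) (k + 1)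
      have hA := lA_eq hI k
      have hch := chain hI k
      have hT := l_total hI k
      have hBk := lB_nonneg (I := I) k
      rcases lt_or_ge k R with hkR | hkR
      · rw [Nat.choose_eq_zero_of_lt hkR]
        simp only [Nat.cast_zero, mul_zero, zero_mul]
        positivity
      · have hkR' : (R : ℝ) ≤ k := by exact_mod_cast hkR
        rcases eq_or_lt_of_le hN1 with h | h
        · have h1 : lB I k = ((Fintype.card V : ℝ) - k) * lN I k := by
            rw [hA, ← h] at hT; linarith
          rw [h1]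
          have h2 : (k.choose R : ℝ) ≤ (M.choose R : ℝ) := by
            exact_mod_cast Nat.choose_le_choose R hk
          have h3 : (k : ℝ) ≤ M := by exact_mod_cast hk
          have h4 : ((Fintype.card V : ℝ) - M) * (k.choose R : ℝ)
              ≤ ((Fintype.card V : ℝ) - k) * (M.choose R : ℝ) :=
            mul_le_mul (by linarith) h2 (Nat.cast_nonneg _) (by linarith)
          have h5 := mul_le_mul_of_nonneg_right h4 hNk
          linarith
        · have h1 : (((Fintype.card V : ℝ) - M) * (k.choose R : ℝ) * lN I k) *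
              ((k + 1) * lN I (k + 1)) ≤ ((M.choose R : ℝ) * lB I k) * ((k + 1) * lN I (k + 1)) := by
            calc (((Fintype.card V : ℝ) - M) * (k.choose R : ℝ) * lN I k) * ((k + 1) * lN I (k + 1))
                = (((Fintype.card V : ℝ) - M) * lN I (k + 1) * lN I k) *
                    ((k + 1) * (k.choose R : ℝ)) := by ring
              _ = (((Fintype.card V : ℝ) - M) * lN I (k + 1) * lN I k) *
                    (((k : ℝ) + 1 - R) * ((k + 1).choose R : ℝ)) := by
                  rw [choose_succ_mul' k R hkR]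
              _ = (((k : ℝ) + 1 - R) * lN I k) * (((Fintype.card V : ℝ) - M) *
                    ((k + 1).choose R : ℝ) * lN I (k + 1)) := by ring
              _ ≤ (((k : ℝ) + 1 - R) * lN I k) * ((M.choose R : ℝ) * lB I (k + 1)) :=
                  mul_le_mul_of_nonneg_left ih' (mul_nonneg (by linarith) hNk)
              _ = (M.choose R : ℝ) * (((k : ℝ) + 1 - R) * lB I (k + 1) * lN I k) := by ring
              _ ≤ (M.choose R : ℝ) * (lA I k * lB I k) :=
                  mul_le_mul_of_nonneg_left hch (Nat.cast_nonneg _)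
              _ = _ := by rw [hA]; ring
          exact le_of_mul_le_mul_right h1 (by positivity)

/-- the expansion in levels -/
theorem br_expand (z : ℝ) (f : Finset V → ℝ) :
    br I z f = ∑ k ∈ range (Fintype.card V + 1), z ^ k * lv I k f := by
  unfold br lv
  have : ∀ k ∈ range (Fintype.card V + 1), z ^ k * ∑ S : Finset V, ind (I S ∧ S.card = k) * f S
      = ∑ S : Finset V, z ^ k * (ind (I S ∧ S.card = k) * f S) := fun k _ => Finset.mul_sum _ _ _
  rw [Finset.sum_congr rfl this, Finset.sum_comm]
  refine Finset.sum_congr rfl fun S _ => ?_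
  rw [Finset.sum_eq_single S.card]
  · rw [ind_congr (show (I S ∧ S.card = S.card) ↔ I S from ⟨fun h => h.1, fun h => ⟨h, rfl⟩⟩)]
    ring
  · intro k _ hk
    rw [ind_false (fun h : I S ∧ S.card = k => hk h.2.symm)]; ring
  · intro h
    exact absurd (mem_range.2 (Nat.lt_succ_of_le (card_le_univ S))) h

theorem br_card (z : ℝ) (φ : ℕ → ℝ) :
    br I z (fun S => φ S.card) = ∑ k ∈ range (Fintype.card V + 1), z ^ k * (φ k * lN I k) := by
  rw [br_expand]
  refine Finset.sum_congr rfl fun k _ => ?_
  congr 1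
  unfold lN
  rw [← lv_smul]
  exact lv_congr fun S _ hk => by rw [hk, mul_one]

theorem br_bl (z : ℝ) (φ : ℕ → ℝ) :
    br I z (fun S => φ S.card * ∑ x, ind (bl I S x))
      = ∑ k ∈ range (Fintype.card V + 1), z ^ k * (φ k * lB I k) := by
  rw [br_expand]
  refine Finset.sum_congr rfl fun k _ => ?_
  congr 1
  unfold lB
  rw [← lv_smul]
  exact lv_congr fun S _ hk => by rw [hk]

theorem br_al (z : ℝ) (φ : ℕ → ℝ) :
    br I z (fun S => φ S.card * ∑ x, ind (al I S x))
      = ∑ k ∈ range (Fintype.card V + 1), z ^ k * (φ k * lA I k) := by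
  rw [br_expand]
  refine Finset.sum_congr rfl fun k _ => ?_
  congr 1
  unfold lA
  rw [← lv_smul]
  exact lv_congr fun S _ hk => by rw [hk]

end

end Pool.Agent.J6H90.DL
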