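import Pool.Agent.J6H90.DL.Stein

/-!
The improvement of de Caen's bound in the linear range.
-/

set_option autoImplicit false
set_option linter.unusedSectionVars false
set_option linter.unusedVariables false

namespace Pool.Agent.J6H90.DL

open Finset Pool.Agent.J6H90.DC

theorem fin1 {R l3 k1 k2 lq lq' lj1 : ℝ} (hlog : (1 + 8 / 10000000000) * l3 ≤ R * k2 - R * k1)
    (h3 : 1 ≤ l3) (a : R * lq' ≤ R * k1) (b : R * k2 ≤ R * lj1) (c : R * lj1 ≤ R * lq)
    (d : R * lq - R * lq' ≤ 13 / 10 ^ 11) : False := by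
  linarith

theorem fin2 {R l3 k1 k2 lq lq' lj lj1 a5 a1 n nm : ℝ}
    (hlog : (1 + 8 / 10000000000) * l3 ≤ R * k2 - R * k1)
    (h3 : 1 ≤ l3) (a : R * lq' ≤ R * k1) (b : R * k2 ≤ R * lj1)
    (h8 : R * lj + (a1 + nm) ≤ R * lq + (l3 + a5 + n))
    (l1 : a5 ≤ 5 / 10 ^ 10) (l2 : -(11 / 10 ^ 11) ≤ a1) (l3' : n - nm ≤ 1 / 10 ^ 11)
    (l4 : R * lj1 - R * lj ≤ 1 / 10 ^ 11)
    (d : R * lq - R * lq' ≤ 13 / 10 ^ 11) : False := by
  have h := mul_le_mul_of_nonneg_left h3 (show (0 : ℝ) ≤ 8 / 10000000000 by norm_num)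
  linarith

section
variable {V : Type} [Fintype V] [DecidableEq V]
variable {I : Finset V → Prop} {R : ℕ}

/-- two activities between which there is a gain -/
theorem two_points (hI : Cx R I) (hR : 2 ≤ R) {S : Finset V} {v : V}
    (hS : I S) (hv : bl I S v) {α : ℝ} (hα0 : 0 < α) (hα : ∀ S, I S → (S.card : ℝ) ≤ α)
    (hα8 : 8 * α ≤ (Fintype.card V : ℝ)) :
    ∃ z1 z2 : ℝ, 0 < z1 ∧ z1 ≤ 1 ∧ 0 < z2 ∧ z2 ≤ 1 ∧ ee I z1 = 1 / 4 ∧ ee I z2 = 3 / 4 ∧
      (1 + 8 / 10000000000) * Real.log 3 ≤ R * Real.log (kap I z2) - R * Real.log (kap I z1) := by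
  have hnr : (0 : ℝ) < (Fintype.card V : ℝ) := by linarith
  have hn : 0 < Fintype.card V := by exact_mod_cast hnr
  have hR1 : 1 ≤ R := by omega
  set n : ℝ := (Fintype.card V : ℝ) with hnn
  have hh1 := hh_pos hI hS hv
  have hc := cc_nonneg (I := I)
  -- kap 1 ≤ α
  have hk1 : kap I 1 ≤ α := by
    have hZ := bZ_pos hI zero_le_one
    unfold kap
    rw [div_le_iff₀ hZ]
    unfold bN bZ
    rw [← br_smul]
    exact br_mono zero_le_one fun S hS => by rw [mul_one]; exact hα S hS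
  have he1 : 1 - 2 * α / n ≤ ee I 1 := by
    have : 1 - ee I 1 ≤ 2 * α / n := by
      rw [one_sub_ee, one_mul]
      apply div_le_div_of_nonneg_right _ hnr.le
      linarith
    linarith
  have he1' : 3 / 4 ≤ ee I 1 := by
    have : 2 * α / n ≤ 1 / 4 := by
      rw [div_le_iff₀ hnr]; linarith
    linarith
  -- continuity
  have hcont : ContinuousOn (ee I) (Set.Ioi 0) := fun z hz =>
    (ee_hasDeriv hI hz hn).continuousAt.continuousWithinAt
  -- a point with small `ee`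
  obtain ⟨z0, hz0, hz01, hez0⟩ : ∃ z0 : ℝ, 0 < z0 ∧ z0 ≤ 1 ∧ ee I z0 ≤ 1 / 4 := by
    set q : ℝ := n / (8 * (hh I R + cc I)) with hq
    have hq0 : 0 < q := by rw [hq]; positivity
    refine ⟨min 1 q, lt_min one_pos hq0, min_le_left _ _, ?_⟩
    have h1 : 0 < min 1 q := lt_min one_pos hq0
    have h2 : min 1 q ≤ 1 := min_le_left _ _
    refine le_trans (ee_le hI h1 h2 hn) ?_
    rw [div_le_iff₀ hnr]
    have h3 : (min 1 q) ^ R ≤ min 1 q := by
      calc (min 1 q) ^ R ≤ (min 1 q) ^ 1 := pow_le_pow_of_le_one h1.le h2 hR1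
        _ = min 1 q := pow_one _
    have h4 : hh I R + min 1 q * cc I ≤ hh I R + cc I := by
      have := mul_le_mul_of_nonneg_right h2 hc
      linarith
    calc (min 1 q) ^ R * (hh I R + min 1 q * cc I) ≤ q * (hh I R + cc I) :=
          mul_le_mul (le_trans h3 (min_le_right _ _)) h4 (by positivity) hq0.le
      _ = n / 8 := by rw [hq]; field_simp
      _ ≤ 1 / 4 * n := by linarith
  -- the first point with large `ee`
  have hsub1 : Set.Icc z0 1 ⊆ Set.Ioi (0 : ℝ) := fun z hz => lt_of_lt_of_le hz0 hz.1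
  have hcl2 : IsClosed (Set.Icc z0 1 ∩ (ee I) ⁻¹' Set.Ici (3 / 4)) :=
    (hcont.mono hsub1).preimage_isClosed_of_isClosed isClosed_Icc isClosed_Ici
  have hcp2 : IsCompact (Set.Icc z0 1 ∩ (ee I) ⁻¹' Set.Ici (3 / 4)) :=
    isCompact_Icc.of_isClosed_subset hcl2 Set.inter_subset_left
  obtain ⟨z2, hz2, hz2min⟩ := hcp2.exists_isLeast ⟨1, ⟨hz01, le_rfl⟩, he1'⟩
  have hz2e : 3 / 4 ≤ ee I z2 := hz2.2
  have hsub2 : Set.Icc z0 z2 ⊆ Set.Ioi (0 : ℝ) := fun z hz => lt_of_lt_of_le hz0 hz.1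
  have hcl1 : IsClosed (Set.Icc z0 z2 ∩ (ee I) ⁻¹' Set.Iic (1 / 4)) :=
    (hcont.mono hsub2).preimage_isClosed_of_isClosed isClosed_Icc isClosed_Iic
  have hcp1 : IsCompact (Set.Icc z0 z2 ∩ (ee I) ⁻¹' Set.Iic (1 / 4)) :=
    isCompact_Icc.of_isClosed_subset hcl1 Set.inter_subset_left
  obtain ⟨z1, hz1, hz1max⟩ := hcp1.exists_isGreatest ⟨z0, ⟨le_rfl, hz2.1.1⟩, hez0⟩
  have hz1e : ee I z1 ≤ 1 / 4 := hz1.2
  have hz1pos : 0 < z1 := hsub2 hz1.1
  have hz2pos : 0 < z2 := hsub1 hz2.1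
  -- equalities
  have heq2 : ee I z2 = 3 / 4 := by
    have hiv := intermediate_value_Icc hz2.1.1 (hcont.mono hsub2)
    obtain ⟨w, hw, hwe⟩ := hiv (show (3 / 4 : ℝ) ∈ Set.Icc (ee I z0) (ee I z2) from
      ⟨by linarith, hz2e⟩)
    have h1 : z2 ≤ w := hz2min ⟨⟨hw.1, le_trans hw.2 hz2.1.2⟩, by
      show 3 / 4 ≤ ee I w; rw [hwe]⟩
    have h2 : w = z2 := le_antisymm hw.2 h1
    rw [← h2]; exact hwe
  have heq1 : ee I z1 = 1 / 4 := by
    have hsub3 : Set.Icc z1 z2 ⊆ Set.Ioi (0 : ℝ) := fun z hz => lt_of_lt_of_le hz1pos hz.1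
    have hiv := intermediate_value_Icc hz1.1.2 (hcont.mono hsub3)
    obtain ⟨w, hw, hwe⟩ := hiv (show (1 / 4 : ℝ) ∈ Set.Icc (ee I z1) (ee I z2) from
      ⟨hz1e, by linarith⟩)
    have h1 : w ≤ z1 := hz1max ⟨⟨le_trans hz1.1.1 hw.1, hw.2⟩, by
      show ee I w ≤ 1 / 4; rw [hwe]⟩
    have h2 : w = z1 := le_antisymm h1 hw.1
    rw [← h2]; exact hwe
  have s2 := mono hI hR1 hn hS hv hz1pos hz1.1.2 (c := 1 + 8 / 10000000000) (by norm_num)
    (fun w hw1 hw2 => by
      have hw0 : 0 < w := lt_trans hz1pos hw1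
      have hwle : w ≤ 1 := (lt_of_lt_of_le hw2 hz2.1.2).le
      have hwz0 : z0 ≤ w := le_trans hz1.1.1 hw1.le
      refine gain_norm hI hR hw0 hwle hn ?_ ?_
      · by_contra hcon
        rw [not_le] at hcon
        exact absurd (hz1max ⟨⟨hwz0, hw2.le⟩, hcon.le⟩) (not_le.2 hw1)
      · by_contra hcon
        rw [not_le] at hcon
        exact absurd (hz2min ⟨⟨hwz0, hwle⟩, hcon.le⟩) (not_le.2 hw2))
  refine ⟨z1, z2, hz1pos, le_trans hz1.1.2 hz2.1.2, hz2pos, hz2.1.2, heq1, heq2, ?_⟩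
  rw [heq1, heq2] at s2
  have a4 : Real.log (3 / 4) = Real.log 3 + Real.log (1 / 4) := by
    rw [← Real.log_mul (by norm_num) (by norm_num)]; norm_num
  rw [a4] at s2
  linarith

/-- the mean size is not small -/
theorem kap_crude (hI : Cx R I) (hR : 2 ≤ R) {z : ℝ} (hz : 0 < z) (hz1 : z ≤ 1)
    (hn : 0 < Fintype.card V) {M : ℕ} (hRM : 8 * R ≤ M)
    {c : ℝ} (hc : 0 ≤ c) (h0 : lB I R ≤ c * lN I R)
    (hcM : c * (M.choose R : ℝ) ≤ 5 / 4 * (Fintype.card V : ℝ)) (he : ee I z = 1 / 4) :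
    (M : ℝ) / 12 ≤ kap I z := by
  have hnr : (0 : ℝ) < (Fintype.card V : ℝ) := by exact_mod_cast hn
  have hZ := bZ_pos hI hz.le
  set n : ℝ := (Fintype.card V : ℝ) with hnn
  have h1 := bB_upper hI hz.le hc h0
  have h2 := fact_moment hI hz.le R
  have h3 := ee_eq hI hz hn
  rw [he, ← hnn] at h3
  rw [← hnn] at h2
  have h4 : bB I z = 1 / 4 * (n * bZ I z) := by
    rw [eq_div_iff (by positivity)] at h3
    linarith
  have hfac : (0 : ℝ) < (R.factorial : ℝ) := by exact_mod_cast R.factorial_pos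
  have h5 : (R.factorial : ℝ) * br I z (fun S => (S.card.choose R : ℝ))
      ≤ (z * n) ^ R * bZ I z := by
    refine le_trans (le_of_eq ?_) h2
    rw [← br_smul]
    refine br_congr fun S _ => ?_
    rw [Nat.descFactorial_eq_factorial_mul_choose]
    push_cast; ring
  have h6 : (((M + 1 - R : ℕ) : ℝ)) ^ R ≤ (R.factorial : ℝ) * (M.choose R : ℝ) := by
    have h7 : (M + 1 - R) ^ R ≤ M.descFactorial R := Nat.pow_sub_le_descFactorial M R
    rw [Nat.descFactorial_eq_factorial_mul_choose] at h7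
    exact_mod_cast h7
  have hcpos : 0 < c := by
    rcases eq_or_lt_of_le hc with h | h
    · exfalso
      rw [← h, zero_mul] at h1
      have : 0 < bB I z := by rw [h4]; positivity
      linarith
    · exact h
  -- (M+1-R)^R ≤ 5 (z n)^R
  have h8 : (((M + 1 - R : ℕ) : ℝ)) ^ R ≤ 5 * (z * n) ^ R := by
    have a1 : R.factorial * bB I z ≤ c * ((z * n) ^ R * bZ I z) := by
      calc R.factorial * bB I z ≤ R.factorial * (c * br I z (fun S => (S.card.choose R : ℝ))) :=
            mul_le_mul_of_nonneg_left h1 hfac.le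
        _ = c * (R.factorial * br I z (fun S => (S.card.choose R : ℝ))) := by ring
        _ ≤ _ := mul_le_mul_of_nonneg_left h5 hc
    rw [h4] at a1
    have a2 : (R.factorial * (1 / 4) * n) * bZ I z ≤ (c * (z * n) ^ R) * bZ I z := by linarith
    have a3 := le_of_mul_le_mul_right a2 hZ
    have a4 : (R.factorial * (M.choose R : ℝ)) * (c * n) ≤ (5 * (z * n) ^ R) * (c * n) := by
      calc (R.factorial * (M.choose R : ℝ)) * (c * n)
          = R.factorial * (c * (M.choose R : ℝ)) * n := by ring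
        _ ≤ R.factorial * (5 / 4 * n) * n :=
            mul_le_mul_of_nonneg_right (mul_le_mul_of_nonneg_left hcM hfac.le) hnr.le
        _ = 5 * (R.factorial * (1 / 4) * n) * n := by ring
        _ ≤ 5 * (c * (z * n) ^ R) * n :=
            mul_le_mul_of_nonneg_right (mul_le_mul_of_nonneg_left a3 (by norm_num)) hnr.le
        _ = _ := by ring
    have a5 := le_of_mul_le_mul_right a4 (by positivity)
    linarith
  have hzn : 0 < z * n := by positivity
  have hMR : (0 : ℝ) ≤ ((M + 1 - R : ℕ) : ℝ) := Nat.cast_nonneg _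
  have h9 : ((M + 1 - R : ℕ) : ℝ) ≤ 3 * (z * n) := by
    by_contra hcon
    rw [not_le] at hcon
    have b1 : (3 * (z * n)) ^ R ≤ (((M + 1 - R : ℕ) : ℝ)) ^ R :=
      pow_le_pow_left₀ (by positivity) hcon.le R
    rw [mul_pow] at b1
    have b2 : (9 : ℝ) ≤ 3 ^ R := by
      calc (9 : ℝ) = 3 ^ 2 := by norm_num
        _ ≤ 3 ^ R := pow_le_pow_right₀ (by norm_num) hR
    have b3 : 0 < (z * n) ^ R := by positivity
    have b4 := mul_le_mul_of_nonneg_right b2 b3.le
    linarith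
  have h10 : 7 / 8 * (M : ℝ) ≤ ((M + 1 - R : ℕ) : ℝ) := by
    rw [Nat.cast_sub (by omega)]
    push_cast
    have : 8 * (R : ℝ) ≤ M := by exact_mod_cast hRM
    linarith
  have h11 : z * n * (3 / 4) = kap I z * (1 + z) := by
    have h1 := one_sub_ee (I := I) (z := z)
    rw [he] at h1
    rw [eq_div_iff (by positivity)] at h1
    linarith
  have hk0 := kap_pos hI (by omega) hz hn
  have h12 : kap I z * (1 + z) ≤ kap I z * 2 := mul_le_mul_of_nonneg_left (by linarith) hk0.le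
  have hM0 : (0 : ℝ) ≤ M := Nat.cast_nonneg _
  linarith

/-- **the main inequality in the linear range** -/
theorem link (hI : Cx R I) (hR : 2 ≤ R) {S0 : Finset V} {v0 : V} (hS : I S0) (hv : bl I S0 v0)
    {M : ℕ} (hM : ∀ S, I S → S.card ≤ M) (hMR : 10 ^ 22 * (R : ℝ) ≤ M)
    (hn : 10 ^ 12 * (M : ℝ) ≤ (Fintype.card V : ℝ)) :
    (1 + 5 / 10 ^ 10) * (Fintype.card V : ℝ) * lN I R ≤ (M.choose R : ℝ) * lB I R := by
  by_contra hcon
  rw [not_le] at hcon
  have hRr : (2 : ℝ) ≤ R := by exact_mod_cast hR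
  have hM0 : (2 * 10 ^ 22 : ℝ) ≤ M := by linarith
  have hMpos : (0 : ℝ) < M := by linarith
  have hnr0 : (0 : ℝ) < (Fintype.card V : ℝ) := by linarith
  have hn0 : 0 < Fintype.card V := by exact_mod_cast hnr0
  set n : ℝ := (Fintype.card V : ℝ) with hnn
  have hnr : (0 : ℝ) < n := by linarith
  have hRM : R ≤ M := by
    have : (R : ℝ) ≤ M := by linarith
    exact_mod_cast this
  have hRM8 : 8 * R ≤ M := by
    have : 8 * (R : ℝ) ≤ M := by linarith
    exact_mod_cast this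
  have hCM : (0 : ℝ) < (M.choose R : ℝ) := by exact_mod_cast Nat.choose_pos hRM
  -- the constant
  set c : ℝ := (1 + 5 / 10 ^ 10) * n / (M.choose R : ℝ) with hc
  have hc0 : 0 ≤ c := by positivity
  have hcC : c * (M.choose R : ℝ) = (1 + 5 / 10 ^ 10) * n := by rw [hc]; field_simp
  have h0 : lB I R ≤ c * lN I R := by
    rw [hc, div_mul_eq_mul_div, le_div_iff₀ hCM]
    linarith
  have hα : ∀ S, I S → (S.card : ℝ) ≤ (M : ℝ) := fun S h => by exact_mod_cast hM S h
  obtain ⟨z1, z2, hz1, hz11, hz2, hz21, he1, he2, hlog⟩ :=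
    two_points hI hR hS hv hMpos hα (by linarith)
  have hk1 := kap_pos hI (show 1 ≤ R by omega) hz1 hn0
  have hk2 := kap_pos hI (show 1 ≤ R by omega) hz2 hn0
  -- the threshold
  classical
  have hex : ∃ k : ℕ, (1 - 1 / 10 ^ 10) * n < 4 * c * (k.choose R : ℝ) := by
    refine ⟨M, ?_⟩
    rw [mul_assoc, hcC]
    linarith
  set q : ℕ := Nat.find hex with hq
  have hq1 : (1 - 1 / 10 ^ 10) * n < 4 * c * (q.choose R : ℝ) := Nat.find_spec hex
  have hqM : q ≤ M := Nat.find_min' hex (by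
    rw [mul_assoc, hcC]; linarith)
  have hqR : R ≤ q := by
    by_contra h
    rw [not_le] at h
    rw [Nat.choose_eq_zero_of_lt h, Nat.cast_zero, mul_zero] at hq1
    have : 0 < (1 - 1 / 10 ^ 10 : ℝ) * n := by positivity
    linarith
  have hq2 : c * ((q - 1).choose R : ℝ) ≤ (1 - 1 / 10 ^ 10) / 4 * n := by
    have := Nat.find_min hex (m := q - 1) (by omega)
    rw [not_lt] at this
    linarith
  have hqpos : 1 ≤ q := by omega
  -- `q` is large
  have hCq : (M.choose R : ℝ) < 5 * (q.choose R : ℝ) := by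
    have a1 : (1 - 1 / 10 ^ 10) * n * (M.choose R : ℝ) < 4 * ((1 + 5 / 10 ^ 10) * n) * (q.choose R : ℝ) := by
      have := mul_lt_mul_of_pos_right hq1 hCM
      calc (1 - 1 / 10 ^ 10) * n * (M.choose R : ℝ) < 4 * c * (q.choose R : ℝ) * (M.choose R : ℝ) := this
        _ = 4 * (c * (M.choose R : ℝ)) * (q.choose R : ℝ) := by ring
        _ = _ := by rw [hcC]
    have a2 : n * ((1 - 1 / 10 ^ 10) * (M.choose R : ℝ))
        < n * (4 * (1 + 5 / 10 ^ 10) * (q.choose R : ℝ)) := by linarith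
    have a3 := lt_of_mul_lt_mul_left a2 hnr.le
    have a4 : (0 : ℝ) ≤ (q.choose R : ℝ) := Nat.cast_nonneg _
    linarith
  have hqM2 : 2 / 5 * (M : ℝ) ≤ q := by
    by_contra h
    rw [not_le] at h
    have h1 := choose_ratio hqpos hqR hqM
    have h2 : ((q : ℝ)) ^ R ≤ (2 / 5 * (M : ℝ)) ^ R := pow_le_pow_left₀ (Nat.cast_nonneg _) h.le R
    rw [mul_pow] at h2
    have h3 : ((2 : ℝ) / 5) ^ R ≤ 4 / 25 := by
      calc ((2 : ℝ) / 5) ^ R ≤ (2 / 5) ^ 2 := pow_le_pow_of_le_one (by norm_num) (by norm_num) hR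
        _ = 4 / 25 := by norm_num
    have h4 : 0 < (M : ℝ) ^ R := by positivity
    have h5 : (M : ℝ) ^ R * (q.choose R : ℝ) ≤ 4 / 25 * (M : ℝ) ^ R * (M.choose R : ℝ) := by
      refine le_trans h1 (mul_le_mul_of_nonneg_right (le_trans h2 ?_) hCM.le)
      exact mul_le_mul_of_nonneg_right h3 h4.le
    have h6 : (M : ℝ) ^ R * (q.choose R : ℝ) ≤ (M : ℝ) ^ R * (4 / 25 * (M.choose R : ℝ)) := by linarith
    have h7 := le_of_mul_le_mul_left h6 h4
    linarith
  have hqM' : (q : ℝ) ≤ M := by exact_mod_cast hqM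
  have hq1r : ((q - 1 : ℕ) : ℝ) = q - 1 := by rw [Nat.cast_sub hqpos]; push_cast; ring
  -- the lower bound for `kap z1`
  have hcr := kap_crude hI hR hz1 hz11 hn0 hRM8 hc0 h0 (by rw [hcC]; linarith) he1
  have hkl := kap_lower hI hz1 hn0 hc0 (show (0 : ℝ) < 1 / 10 ^ 10 by norm_num) (by norm_num) h0
    (p := q - 1) (by linarith) he1 (by
      rw [hq1r]
      have : 16 * (M : ℝ) ≤ 1 / 10 ^ 10 * (10 ^ 12 * (M : ℝ)) := by linarith
      linarith) (δ := 1 / 12) (by norm_num) (by rw [hq1r]; linarith) hk1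
  rw [hq1r] at hkl
  have hkl2 : (q : ℝ) - 49 * 10 ^ 10 ≤ kap I z1 := by
    have : (4 : ℝ) / (1 / 10 ^ 10 * (1 / 12)) = 48 * 10 ^ 10 := by norm_num
    rw [this] at hkl
    linarith
  have hbig : 39 / 100 * (M : ℝ) ≤ (q : ℝ) - 49 * 10 ^ 10 := by linarith
  have hlow : 0 < (q : ℝ) - 49 * 10 ^ 10 := by linarith
  -- the upper bound for `kap z2`
  set j : ℕ := ⌊kap I z2⌋₊ with hj
  have hj1 : (j : ℝ) ≤ kap I z2 := Nat.floor_le hk2.le
  have hj2 : kap I z2 < j + 1 := Nat.lt_floor_add_one _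
  have hlog3 : (1 : ℝ) ≤ Real.log 3 := by
    rw [Real.le_log_iff_exp_le (by norm_num)]
    linarith [Real.exp_one_lt_d9]
  have hlk1 : R * Real.log ((q : ℝ) - 49 * 10 ^ 10) ≤ R * Real.log (kap I z1) :=
    mul_le_mul_of_nonneg_left (Real.log_le_log hlow hkl2) (by linarith)
  have hlk2 : R * Real.log (kap I z2) ≤ R * Real.log ((j : ℝ) + 1) :=
    mul_le_mul_of_nonneg_left (Real.log_le_log hk2 hj2.le) (by linarith)
  -- R (log q - log (q - 49 10^10)) is small
  have hs1 : R * (Real.log q - Real.log ((q : ℝ) - 49 * 10 ^ 10)) ≤ 13 / 10 ^ 11 := by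
    rw [← Real.log_div (by linarith) hlow.ne']
    have h1 := Real.log_le_sub_one_of_pos (show 0 < (q : ℝ) / ((q : ℝ) - 49 * 10 ^ 10) by
      apply div_pos _ hlow; linarith)
    have h2 : (q : ℝ) / ((q : ℝ) - 49 * 10 ^ 10) - 1 = 49 * 10 ^ 10 / ((q : ℝ) - 49 * 10 ^ 10) := by
      field_simp; ring
    rw [h2] at h1
    have h3 : R * Real.log ((q : ℝ) / ((q : ℝ) - 49 * 10 ^ 10))
        ≤ R * (49 * 10 ^ 10 / ((q : ℝ) - 49 * 10 ^ 10)) := mul_le_mul_of_nonneg_left h1 (by linarith)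
    refine le_trans h3 ?_
    rw [mul_div_assoc', div_le_iff₀ hlow]
    have : 13 / 10 ^ 11 * (39 / 100 * (10 ^ 22 * (R : ℝ))) ≤ 13 / 10 ^ 11 * ((q : ℝ) - 49 * 10 ^ 10) := by
      apply mul_le_mul_of_nonneg_left _ (by norm_num)
      linarith
    refine le_trans ?_ this
    linarith
  rcases lt_or_ge j q with hjq | hjq
  · -- `kap z2 < q`
    have h1 : (j : ℝ) + 1 ≤ q := by exact_mod_cast hjq
    have h2 : R * Real.log ((j : ℝ) + 1) ≤ R * Real.log q :=
      mul_le_mul_of_nonneg_left (Real.log_le_log (by positivity) h1) (by linarith)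
    have h3 : R * (Real.log q - Real.log ((q : ℝ) - 49 * 10 ^ 10))
        = R * Real.log q - R * Real.log ((q : ℝ) - 49 * 10 ^ 10) := by ring
    rw [h3] at hs1
    exact fin1 hlog hlog3 hlk1 hlk2 h2 hs1
  · have hjr : (q : ℝ) ≤ j := by exact_mod_cast hjq
    have hj0 : (0 : ℝ) < j := by linarith
    have hq0 : (0 : ℝ) < q := by linarith
    -- the bound for `choose j R`
    have hcm := choose_mean hI hz2.le j hj1 (R := R)
    have hbl := bB_lower hI hz2.le hM (by linarith)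
    have hZ := bZ_pos hI hz2.le
    have h3 := ee_eq hI hz2 hn0
    rw [he2, ← hnn] at h3
    rw [← hnn] at hbl
    have h4 : bB I z2 = 3 / 4 * (n * bZ I z2) := by
      rw [eq_div_iff (by positivity)] at h3
      linarith
    have hnM : 0 < n - M := by linarith
    have h5 : (n - M) * (j.choose R : ℝ) ≤ (M.choose R : ℝ) * (3 / 4 * n) := by
      have a1 : ((n - M) * (j.choose R : ℝ)) * bZ I z2 ≤ ((M.choose R : ℝ) * (3 / 4 * n)) * bZ I z2 := by
        calc ((n - M) * (j.choose R : ℝ)) * bZ I z2 = (n - M) * ((j.choose R : ℝ) * bZ I z2) := by ring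
          _ ≤ (n - M) * br I z2 (fun S => (S.card.choose R : ℝ)) :=
              mul_le_mul_of_nonneg_left hcm hnM.le
          _ ≤ (M.choose R : ℝ) * bB I z2 := hbl
          _ = _ := by rw [h4]; ring
      exact le_of_mul_le_mul_right a1 hZ
    -- (j/q)^R
    have h6 := choose_ratio hqpos hqR hjq
    have hCq0 : (0 : ℝ) < (q.choose R : ℝ) := by exact_mod_cast Nat.choose_pos hqR
    -- (j/q)^R (1 - 10^-10) (n - M) ≤ 3 (1 + 5/10^10) n
    have h7 : (j : ℝ) ^ R * ((1 - 1 / 10 ^ 10) * (n - M)) ≤ (q : ℝ) ^ R * (3 * (1 + 5 / 10 ^ 10) * n) := by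
      have a0 : 0 < (j : ℝ) ^ R := by positivity
      have a1 : ((j : ℝ) ^ R * ((1 - 1 / 10 ^ 10) * (n - M))) * (n * (M.choose R : ℝ))
          ≤ ((q : ℝ) ^ R * (3 * (1 + 5 / 10 ^ 10) * n)) * (n * (M.choose R : ℝ)) := by
        calc ((j : ℝ) ^ R * ((1 - 1 / 10 ^ 10) * (n - M))) * (n * (M.choose R : ℝ))
            = (j : ℝ) ^ R * (n - M) * (M.choose R : ℝ) * ((1 - 1 / 10 ^ 10) * n) := by ring
          _ ≤ (j : ℝ) ^ R * (n - M) * (M.choose R : ℝ) * (4 * c * (q.choose R : ℝ)) :=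
              mul_le_mul_of_nonneg_left hq1.le (by positivity)
          _ = ((j : ℝ) ^ R * (q.choose R : ℝ)) * (n - M) * 4 * (c * (M.choose R : ℝ)) := by ring
          _ ≤ ((q : ℝ) ^ R * (j.choose R : ℝ)) * (n - M) * 4 * (c * (M.choose R : ℝ)) := by
              apply mul_le_mul_of_nonneg_right _ (by positivity)
              apply mul_le_mul_of_nonneg_right _ (by norm_num)
              exact mul_le_mul_of_nonneg_right h6 hnM.le
          _ = (q : ℝ) ^ R * 4 * (c * (M.choose R : ℝ)) * ((n - M) * (j.choose R : ℝ)) := by ring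
          _ ≤ (q : ℝ) ^ R * 4 * (c * (M.choose R : ℝ)) * ((M.choose R : ℝ) * (3 / 4 * n)) :=
              mul_le_mul_of_nonneg_left h5 (by positivity)
          _ = _ := by rw [hcC]; ring
      exact le_of_mul_le_mul_right a1 (by positivity)
    -- logarithms
    have h8 : R * Real.log j + (Real.log (1 - 1 / 10 ^ 10) + Real.log (n - M))
        ≤ R * Real.log q + (Real.log 3 + Real.log (1 + 5 / 10 ^ 10) + Real.log n) := by
      have b1 := Real.log_le_log (by positivity) h7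
      rw [Real.log_mul (by positivity) (by positivity), Real.log_mul (by norm_num) hnM.ne',
        Real.log_mul (by positivity) (by positivity), Real.log_mul (by positivity) hnr.ne',
        Real.log_mul (by norm_num) (by norm_num), Real.log_pow, Real.log_pow] at b1
      linarith
    have l1 : Real.log (1 + 5 / 10 ^ 10) ≤ 5 / 10 ^ 10 := by
      have := Real.log_le_sub_one_of_pos (show (0 : ℝ) < 1 + 5 / 10 ^ 10 by norm_num)
      linarith
    have l2 : -(11 / 10 ^ 11) ≤ Real.log (1 - 1 / 10 ^ 10) := by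
      have := Real.one_sub_inv_le_log_of_pos (show (0 : ℝ) < 1 - 1 / 10 ^ 10 by norm_num)
      have h : (1 : ℝ) - (1 - 1 / 10 ^ 10)⁻¹ ≥ -(11 / 10 ^ 11) := by norm_num
      linarith
    have l3 : Real.log n - Real.log (n - M) ≤ 1 / 10 ^ 11 := by
      rw [← Real.log_div hnr.ne' hnM.ne']
      have := Real.log_le_sub_one_of_pos (show 0 < n / (n - M) by positivity)
      have e : n / (n - M) - 1 = M / (n - M) := by field_simp; ring
      rw [e] at this
      refine le_trans this ?_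
      rw [div_le_iff₀ hnM]
      linarith
    have l4 : R * (Real.log ((j : ℝ) + 1) - Real.log j) ≤ 1 / 10 ^ 11 := by
      rw [← Real.log_div (by positivity) hj0.ne']
      have := Real.log_le_sub_one_of_pos (show 0 < ((j : ℝ) + 1) / j by positivity)
      have e : ((j : ℝ) + 1) / j - 1 = 1 / j := by field_simp; ring
      rw [e] at this
      have h := mul_le_mul_of_nonneg_left this (show (0 : ℝ) ≤ R by linarith)
      refine le_trans h ?_
      rw [mul_one_div, div_le_iff₀ hj0]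
      have : (R : ℝ) ≤ 1 / 10 ^ 11 * (2 / 5 * (10 ^ 22 * R)) := by linarith
      linarith
    have e3 : R * (Real.log q - Real.log ((q : ℝ) - 49 * 10 ^ 10))
        = R * Real.log q - R * Real.log ((q : ℝ) - 49 * 10 ^ 10) := by ring
    have e4 : R * (Real.log ((j : ℝ) + 1) - Real.log j)
        = R * Real.log ((j : ℝ) + 1) - R * Real.log j := by ring
    rw [e3] at hs1
    rw [e4] at l4
    exact fin2 hlog hlog3 hlk1 hlk2 h8 l1 l2 l3 l4 hs1

end

end Pool.Agent.J6H90.DL
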