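import Pool.Agent.J6H90.DL.Level

/-!
The size of a random member: moments and a lower bound for the mean.
-/

set_option autoImplicit false
set_option linter.unusedSectionVars false
set_option linter.unusedVariables false

namespace Pool.Agent.J6H90.DL

open Finset Pool.Agent.J6H90.DC

/-- the growth of binomial coefficients -/
theorem choose_ratio {R i j : ℕ} (hi : 1 ≤ i) (hRi : R ≤ i) (hij : i ≤ j) :
    (j : ℝ) ^ R * (i.choose R : ℝ) ≤ (i : ℝ) ^ R * (j.choose R : ℝ) := by
  induction j, hij using Nat.le_induction with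
  | base => exact le_rfl
  | succ j hij ih =>
    have hj0 : (0 : ℝ) < j := by exact_mod_cast lt_of_lt_of_le hi hij
    have hRj : (R : ℝ) ≤ j := by exact_mod_cast le_trans hRi hij
    have hpos : (0 : ℝ) < (j : ℝ) + 1 - R := by linarith
    have hb : 1 + (R : ℝ) * (-(1 / ((j : ℝ) + 1))) ≤ (1 + (-(1 / ((j : ℝ) + 1)))) ^ R := by
      apply one_add_mul_le_pow
      have : 1 / ((j : ℝ) + 1) ≤ 1 := by
        rw [div_le_one (by positivity)]; linarith
      linarith
    have e1 : 1 + (-(1 / ((j : ℝ) + 1))) = (j : ℝ) / ((j : ℝ) + 1) := by field_simp; ring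
    have e2 : 1 + (R : ℝ) * (-(1 / ((j : ℝ) + 1))) = ((j : ℝ) + 1 - R) / ((j : ℝ) + 1) := by
      field_simp; ring
    rw [e1, e2, div_pow, div_le_div_iff₀ (by positivity) (by positivity)] at hb
    -- hb : (j+1-R) * (j+1)^R ≤ j^R * (j+1)
    have hc := choose_succ_mul' j R (le_trans hRi hij)
    have h1 : ((j : ℝ) + 1 - R) * (((j : ℝ) + 1) ^ R * (i.choose R : ℝ))
        ≤ ((j : ℝ) + 1 - R) * ((i : ℝ) ^ R * ((j + 1).choose R : ℝ)) := by
      calc ((j : ℝ) + 1 - R) * (((j : ℝ) + 1) ^ R * (i.choose R : ℝ))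
          = (((j : ℝ) + 1 - R) * ((j : ℝ) + 1) ^ R) * (i.choose R : ℝ) := by ring
        _ ≤ ((j : ℝ) ^ R * ((j : ℝ) + 1)) * (i.choose R : ℝ) :=
            mul_le_mul_of_nonneg_right hb (Nat.cast_nonneg _)
        _ = ((j : ℝ) + 1) * ((j : ℝ) ^ R * (i.choose R : ℝ)) := by ring
        _ ≤ ((j : ℝ) + 1) * ((i : ℝ) ^ R * (j.choose R : ℝ)) :=
            mul_le_mul_of_nonneg_left ih (by positivity)
        _ = (i : ℝ) ^ R * (((j : ℝ) + 1) * (j.choose R : ℝ)) := by ring
        _ = (i : ℝ) ^ R * (((j : ℝ) + 1 - R) * ((j + 1).choose R : ℝ)) := by rw [hc]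
        _ = _ := by ring
    have h2 := le_of_mul_le_mul_left h1 hpos
    push_cast
    exact h2

/-- convexity of binomial coefficients -/
theorem choose_ge_of_mean {R : ℕ} (j k : ℕ) :
    (j.choose R : ℝ) + ((k : ℝ) - j) * (((j + 1).choose R : ℝ) - (j.choose R : ℝ))
      ≤ (k.choose R : ℝ) := by
  cases R with
  | zero => simp
  | succ R =>
    have hstep : ∀ i : ℕ, ((i + 1).choose (R + 1) : ℝ) - (i.choose (R + 1) : ℝ) = (i.choose R : ℝ) := by
      intro i
      rw [Nat.choose_succ_succ]
      push_cast; ring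
    rw [hstep]
    rcases le_total j k with h | h
    · induction k, h using Nat.le_induction with
      | base => simp
      | succ k hk ih =>
        have h1 := hstep k
        have h2 : (j.choose R : ℝ) ≤ (k.choose R : ℝ) := by
          exact_mod_cast Nat.choose_le_choose R hk
        push_cast
        linarith
    · obtain ⟨d, hd⟩ : ∃ d, k + d = j := ⟨j - k, by omega⟩
      clear h
      induction d generalizing k with
      | zero =>
        have : k = j := by omega
        subst this; simp
      | succ d ih =>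
        have h0 := ih (k + 1) (by omega)
        have h1 := hstep k
        have h2 : (k.choose R : ℝ) ≤ (j.choose R : ℝ) := by
          exact_mod_cast Nat.choose_le_choose R (by omega)
        push_cast at h0
        linarith

section
variable {V : Type} [Fintype V] [DecidableEq V]
variable {I : Finset V → Prop} {R : ℕ}

theorem al_le_card (S : Finset V) : ∑ x, ind (al I S x) ≤ (Fintype.card V : ℝ) := by
  calc ∑ x, ind (al I S x) ≤ ∑ _x : V, (1 : ℝ) := Finset.sum_le_sum fun x _ => ind_le_one _
    _ = (Fintype.card V : ℝ) := by simp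

/-- Mecke's formula for functions of the size -/
theorem stein (hI : Cx R I) (z : ℝ) (φ : ℕ → ℝ) :
    br I z (fun S => (S.card : ℝ) * φ S.card)
      = z * br I z (fun S => φ (S.card + 1) * ∑ x, ind (al I S x)) := by
  have h := mecke hI (z := z) (fun S _ => φ S.card)
  have e1 : br I z (fun S => ∑ y, ind (y ∈ S) * φ S.card)
      = br I z (fun S => (S.card : ℝ) * φ S.card) := by
    refine br_congr fun S _ => ?_
    rw [← Finset.sum_mul, sum_ind_mem]
  rw [← e1, h]
  congr 1
  refine br_congr fun S _ => ?_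
  rw [Finset.mul_sum]
  refine Finset.sum_congr rfl fun y _ => ?_
  by_cases hy : al I S y
  · rw [card_insert_of_notMem hy.1]; ring
  · rw [ind_false hy]; ring

/-- factorial moments -/
theorem fact_moment (hI : Cx R I) {z : ℝ} (hz : 0 ≤ z) (j : ℕ) :
    br I z (fun S => (S.card.descFactorial j : ℝ))
      ≤ (z * (Fintype.card V : ℝ)) ^ j * bZ I z := by
  induction j with
  | zero => unfold bZ; simp
  | succ j ih =>
    have h := stein hI z (fun k => ((k - 1).descFactorial j : ℝ))
    have e1 : br I z (fun S => (S.card.descFactorial (j + 1) : ℝ))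
        = br I z (fun S => (S.card : ℝ) * ((S.card - 1).descFactorial j : ℝ)) := by
      refine br_congr fun S _ => ?_
      rcases Nat.eq_zero_or_pos S.card with h0 | h0
      · rw [h0]; simp
      · obtain ⟨m, hm⟩ : ∃ m, S.card = m + 1 := ⟨S.card - 1, by omega⟩
        rw [hm, Nat.succ_descFactorial_succ, Nat.add_sub_cancel]
        push_cast; ring
    rw [e1, h]
    have h2 : br I z (fun S => ((S.card + 1 - 1).descFactorial j : ℝ) * ∑ x, ind (al I S x))
        ≤ (Fintype.card V : ℝ) * br I z (fun S => (S.card.descFactorial j : ℝ)) := by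
      rw [← br_smul]
      refine br_mono hz fun S _ => ?_
      rw [Nat.add_sub_cancel, mul_comm]
      exact mul_le_mul_of_nonneg_right (al_le_card S) (Nat.cast_nonneg _)
    calc z * br I z (fun S => ((S.card + 1 - 1).descFactorial j : ℝ) * ∑ x, ind (al I S x))
        ≤ z * ((Fintype.card V : ℝ) * br I z (fun S => (S.card.descFactorial j : ℝ))) :=
          mul_le_mul_of_nonneg_left h2 hz
      _ ≤ z * ((Fintype.card V : ℝ) * ((z * (Fintype.card V : ℝ)) ^ j * bZ I z)) :=
          mul_le_mul_of_nonneg_left (mul_le_mul_of_nonneg_left ih (Nat.cast_nonneg _)) hz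
      _ = _ := by ring

/-- the upper bound for the blocked points at `z` -/
theorem bB_upper (hI : Cx R I) {z : ℝ} (hz : 0 ≤ z) {c : ℝ} (hc : 0 ≤ c)
    (h0 : lB I R ≤ c * lN I R) :
    bB I z ≤ c * br I z (fun S => (S.card.choose R : ℝ)) := by
  have e1 : bB I z = ∑ k ∈ range (Fintype.card V + 1), z ^ k * (1 * lB I k) := by
    rw [← br_bl z (fun _ => (1 : ℝ))]
    unfold bB
    exact br_congr fun S _ => by rw [one_mul]
  rw [e1, br_card z (fun k => (k.choose R : ℝ)), Finset.mul_sum]
  refine Finset.sum_le_sum fun k _ => ?_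
  have h := lB_upper hI hc h0 k
  calc z ^ k * (1 * lB I k) ≤ z ^ k * (c * (k.choose R : ℝ) * lN I k) := by
        rw [one_mul]; exact mul_le_mul_of_nonneg_left h (pow_nonneg hz _)
    _ = c * (z ^ k * ((k.choose R : ℝ) * lN I k)) := by ring

/-- the lower bound for the blocked points at `z` -/
theorem bB_lower (hI : Cx R I) {z : ℝ} (hz : 0 ≤ z) {M : ℕ} (hM : ∀ S, I S → S.card ≤ M)
    (hn : (M : ℝ) ≤ (Fintype.card V : ℝ)) :
    ((Fintype.card V : ℝ) - M) * br I z (fun S => (S.card.choose R : ℝ))
      ≤ (M.choose R : ℝ) * bB I z := by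
  have e1 : bB I z = ∑ k ∈ range (Fintype.card V + 1), z ^ k * (1 * lB I k) := by
    rw [← br_bl z (fun _ => (1 : ℝ))]
    unfold bB
    exact br_congr fun S _ => by rw [one_mul]
  rw [e1, br_card z (fun k => (k.choose R : ℝ)), Finset.mul_sum, Finset.mul_sum]
  refine Finset.sum_le_sum fun k _ => ?_
  have h := lB_lower hI hM hn k
  calc ((Fintype.card V : ℝ) - M) * (z ^ k * ((k.choose R : ℝ) * lN I k))
      = z ^ k * (((Fintype.card V : ℝ) - M) * (k.choose R : ℝ) * lN I k) := by ring
    _ ≤ z ^ k * ((M.choose R : ℝ) * lB I k) := mul_le_mul_of_nonneg_left h (pow_nonneg hz _)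
    _ = _ := by ring

/-- the mean of the binomial coefficient -/
theorem choose_mean (hI : Cx R I) {z : ℝ} (hz : 0 ≤ z) (j : ℕ) (hj : (j : ℝ) ≤ kap I z) :
    (j.choose R : ℝ) * bZ I z ≤ br I z (fun S => (S.card.choose R : ℝ)) := by
  have hZ := bZ_pos hI hz
  have h1 : br I z (fun S => (j.choose R : ℝ) * 1
      + (((j + 1).choose R : ℝ) - (j.choose R : ℝ)) * ((S.card : ℝ) - j * 1))
      ≤ br I z (fun S => (S.card.choose R : ℝ)) := by
    refine br_mono hz fun S _ => ?_
    have := choose_ge_of_mean (R := R) j S.card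
    linarith
  rw [br_add, br_smul, br_smul, br_sub, br_smul] at h1
  have h2 : (0 : ℝ) ≤ ((j + 1).choose R : ℝ) - (j.choose R : ℝ) := by
    rw [sub_nonneg]
    exact_mod_cast Nat.choose_le_choose R (Nat.le_succ j)
  have h3 : (0 : ℝ) ≤ br I z (fun S => (S.card : ℝ)) - j * br I z (fun _ => 1) := by
    have : (j : ℝ) * bZ I z ≤ bN I z := by
      unfold kap at hj
      rw [le_div_iff₀ hZ] at hj
      exact hj
    unfold bZ bN at this
    linarith
  have h4 := mul_nonneg h2 h3
  unfold bZ
  linarith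

/-- **the lower bound for the mean size** -/
theorem kap_lower (hI : Cx R I) {z : ℝ} (hz : 0 < z) (hn : 0 < Fintype.card V)
    {c η : ℝ} (hc : 0 ≤ c) (hη : 0 < η) (hη1 : η ≤ 1) (h0 : lB I R ≤ c * lN I R)
    {p : ℕ} (hp : c * (p.choose R : ℝ) ≤ (1 - η) / 4 * (Fintype.card V : ℝ))
    (he : ee I z = 1 / 4) (hnp : 16 * (p : ℝ) ≤ η * (Fintype.card V : ℝ))
    {δ : ℝ} (hδ : 0 < δ) (hk : δ * p ≤ kap I z) (hkpos : 0 < kap I z) :
    (p : ℝ) - 4 / (η * δ) ≤ kap I z := by
  have hnr : (0 : ℝ) < (Fintype.card V : ℝ) := by exact_mod_cast hn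
  have hZ := bZ_pos hI hz.le
  set n : ℝ := (Fintype.card V : ℝ) with hnn
  set κ := kap I z with hκ
  set d : ℕ → ℝ := fun k => ((p - k : ℕ) : ℝ) with hd
  have hd0 : ∀ k, 0 ≤ d k := fun k => Nat.cast_nonneg _
  set D : ℝ := br I z (fun S => d S.card) with hD
  set D2 : ℝ := br I z (fun S => d S.card ^ 2) with hD2
  -- the left side
  have hL : br I z (fun S => (S.card : ℝ) * ((p + 1 - S.card : ℕ) : ℝ)) ≤ p * D - D2 + p * bZ I z := by
    have : p * D - D2 + p * bZ I z = br I z (fun S => (p * d S.card - d S.card ^ 2) + p * 1) := by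
      rw [br_add, br_sub, br_smul, br_smul]; rfl
    rw [this]
    refine br_mono hz.le fun S _ => ?_
    rcases le_or_gt S.card p with h | h
    · have e1 : ((p + 1 - S.card : ℕ) : ℝ) = p + 1 - S.card := by
        rw [Nat.cast_sub (by omega)]; push_cast; ring
      have e2 : d S.card = p - S.card := by
        simp only [hd]; rw [Nat.cast_sub h]
      have e3 : (S.card : ℝ) ≤ p := by exact_mod_cast h
      rw [e1, e2]
      nlinarith
    · have e1 : (p + 1 - S.card : ℕ) = 0 := by omega
      have e2 : d S.card = 0 := by simp only [hd]; rw [show p - S.card = 0 by omega]; simp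
      rw [e1, e2]
      simp
  -- the right side
  have hS := stein hI z (fun k => ((p + 1 - k : ℕ) : ℝ))
  have hR1 : br I z (fun S => ((p + 1 - (S.card + 1) : ℕ) : ℝ) * ∑ x, ind (al I S x))
      = ∑ k ∈ range (Fintype.card V + 1), z ^ k * (d k * lA I k) := by
    rw [← br_al z d]
    refine br_congr fun S _ => ?_
    simp only [hd]
    rw [show p + 1 - (S.card + 1) = p - S.card by omega]
  have hR2 : ((n - p) - (1 - η) / 4 * n) * D
      ≤ ∑ k ∈ range (Fintype.card V + 1), z ^ k * (d k * lA I k) := by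
    rw [hD, br_card z d, Finset.mul_sum]
    refine Finset.sum_le_sum fun k _ => ?_
    have hzk : 0 ≤ z ^ k := pow_nonneg hz.le _
    rcases le_or_gt k p with h | h
    · have hN := lN_nonneg (I := I) k
      have h1 := lB_upper hI hc h0 k
      have h2 := l_total hI k
      have h3 : (k.choose R : ℝ) ≤ (p.choose R : ℝ) := by
        exact_mod_cast Nat.choose_le_choose R h
      have h4 : c * (k.choose R : ℝ) ≤ (1 - η) / 4 * n :=
        le_trans (mul_le_mul_of_nonneg_left h3 hc) hp
      have h5 : lB I k ≤ (1 - η) / 4 * n * lN I k :=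
        le_trans h1 (mul_le_mul_of_nonneg_right h4 hN)
      have h6 : (k : ℝ) * lN I k ≤ p * lN I k :=
        mul_le_mul_of_nonneg_right (by exact_mod_cast h) hN
      have h7 : ((n - p) - (1 - η) / 4 * n) * lN I k ≤ lA I k := by
        have : (n - p - (1 - η) / 4 * n) * lN I k
          = n * lN I k - p * lN I k - (1 - η) / 4 * n * lN I k := by ring
        rw [this]; linarith
      calc ((n - p) - (1 - η) / 4 * n) * (z ^ k * (d k * lN I k))
          = z ^ k * (d k * (((n - p) - (1 - η) / 4 * n) * lN I k)) := by ring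
        _ ≤ z ^ k * (d k * lA I k) :=
            mul_le_mul_of_nonneg_left (mul_le_mul_of_nonneg_left h7 (hd0 k)) hzk
    · have : d k = 0 := by simp only [hd]; rw [show p - k = 0 by omega]; simp
      rw [this]; simp
  rw [hS, hR1] at hL
  have hmain : z * (((n - p) - (1 - η) / 4 * n) * D) ≤ p * D - D2 + p * bZ I z :=
    le_trans (mul_le_mul_of_nonneg_left hR2 hz.le) hL
  -- Cauchy-Schwarz
  have hcs : D ^ 2 ≤ D2 * bZ I z := by
    have h := br_cs (I := I) hz.le (fun S => d S.card) (fun _ => 1)
    have e1 : br I z (fun S => d S.card * 1) = D := by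
      rw [hD]; exact br_congr fun S _ => by rw [mul_one]
    have e2 : br I z (fun _ => (1 : ℝ) ^ 2) = bZ I z := by
      unfold bZ; exact br_congr fun S _ => by norm_num
    rw [e1, e2] at h
    exact h
  -- the relation of `z` and `κ`
  have hzκ : z * n * (3 / 4) = κ * (1 + z) := by
    have h1 := one_sub_ee (I := I) (z := z)
    rw [he] at h1
    rw [eq_div_iff (by positivity)] at h1
    linarith
  have hD0 : 0 ≤ D := br_nonneg hz.le fun S _ => hd0 _
  -- D ≥ p - κ
  have hDge : (p - κ) * bZ I z ≤ D := by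
    have h1 : br I z (fun S => p * 1 - (S.card : ℝ)) ≤ D := by
      refine br_mono hz.le fun S _ => ?_
      simp only [hd]
      rcases le_or_gt S.card p with h | h
      · rw [Nat.cast_sub h]; linarith
      · have : (p : ℝ) < S.card := by exact_mod_cast h
        rw [show p - S.card = 0 by omega]; push_cast; linarith
    rw [br_sub, br_smul] at h1
    have h2 : κ * bZ I z = br I z (fun S => (S.card : ℝ)) := by
      rw [hκ]; unfold kap; rw [div_mul_cancel₀ _ hZ.ne']; rfl
    have h3 : bZ I z = br I z (fun _ => 1) := rfl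
    rw [sub_mul, h2]
    rw [← h3] at h1
    linarith
  rcases le_or_gt (p : ℝ) κ with hcase | hcase
  · have : 0 < 4 / (η * δ) := by positivity
    linarith
  -- normalise
  set E : ℝ := D / bZ I z with hE
  have hE1 : D = E * bZ I z := by rw [hE]; field_simp
  have hE0 : 0 ≤ E := div_nonneg hD0 hZ.le
  have hE2 : p - κ ≤ E := by
    rw [hE, le_div_iff₀ hZ]; exact hDge
  have hE3 : E ^ 2 * bZ I z ≤ D2 := by
    rw [hE1] at hcs
    have : (E ^ 2 * bZ I z) * bZ I z ≤ D2 * bZ I z := by linarith
    exact le_of_mul_le_mul_right this hZ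
  have hm2 : z * (((n - p) - (1 - η) / 4 * n) * E) ≤ p * E - E ^ 2 + p := by
    have h1 : (z * (((n - p) - (1 - η) / 4 * n) * E)) * bZ I z ≤ (p * E - E ^ 2 + p) * bZ I z := by
      rw [hE1] at hmain
      linarith
    exact le_of_mul_le_mul_right h1 hZ
  have hcoef : κ * (1 + η / 4) ≤ z * ((n - p) - (1 - η) / 4 * n) := by
    -- z*(n - p - (1-η)/4 n) = z n (3/4 + η/4) - z p
    have h1 : z * (16 * (p : ℝ)) ≤ z * (η * n) := mul_le_mul_of_nonneg_left hnp hz.le
    have h2 : κ ≤ z * n * (3 / 4) := by rw [hzκ]; nlinarith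
    nlinarith
  have hm3 : κ * (1 + η / 4) * E ≤ p * E - E ^ 2 + p := by
    have := mul_le_mul_of_nonneg_right hcoef hE0
    linarith
  have hm4 : κ * (η / 4) * E ≤ p := by nlinarith
  have hp0 : (0 : ℝ) < p := lt_trans hkpos hcase
  have hm5 : δ * p * (η / 4) * E ≤ p := by
    have : δ * p * (η / 4) * E ≤ κ * (η / 4) * E :=
      mul_le_mul_of_nonneg_right (mul_le_mul_of_nonneg_right hk (by positivity)) hE0
    linarith
  have hm6 : E ≤ 4 / (η * δ) := by
    rw [le_div_iff₀ (by positivity)]
    have : p * (δ * (η / 4) * E) ≤ p * 1 := by linarith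
    have := le_of_mul_le_mul_left this hp0
    linarith
  linarith

end

end Pool.Agent.J6H90.DL
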