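import Pool.Agent.J6H90.DL.Link
import Pool.Agent.J6H90.DC.Turan
import Pool.Agent.Y437.FC.Uni

/-!
Turán systems in the linear range.
-/

set_option autoImplicit false
set_option linter.unusedSectionVars false
set_option linter.unusedVariables false

namespace Pool.Agent.J6H90.DL

open Finset Filter Topology Pool.Agent.J6H90.DC

theorem lN_ind {n r : ℕ} (hr : 1 ≤ r) {H : Finset (Finset (Fin n))} (hH : ∀ B ∈ H, B.card = r) :
    lN (Ind H) (r - 1) = (n.choose (r - 1) : ℝ) := by
  classical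
  unfold lN lv
  have : ∀ S : Finset (Fin n), ind (Ind H S ∧ S.card = r - 1) * (fun _ => (1 : ℝ)) S
      = ind (S ∈ (univ : Finset (Fin n)).powersetCard (r - 1)) := by
    intro S
    rw [mul_one]
    refine ind_congr ?_
    rw [mem_powersetCard]
    constructor
    · rintro ⟨_, h⟩; exact ⟨subset_univ _, h⟩
    · rintro ⟨_, h⟩
      refine ⟨?_, h⟩
      intro B hB hBS
      have h1 := card_le_card hBS
      rw [hH B hB, h] at h1
      omega
  rw [Finset.sum_congr rfl fun S _ => this S, sum_ind_card (V := Finset (Fin n))]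
  have e : (univ.filter (fun S : Finset (Fin n) => S ∈ (univ : Finset (Fin n)).powersetCard (r - 1)))
      = (univ : Finset (Fin n)).powersetCard (r - 1) := by ext; simp
  rw [e, card_powersetCard, card_univ, Fintype.card_fin]

theorem blocks_ge {n r m : ℕ} (hr : 3 ≤ r) (hm : 10 ^ 22 * (r - 1) ≤ m - 1)
    (hn : 10 ^ 12 * (m - 1) ≤ n)
    {H : Finset (Finset (Fin n))} (hH : ∀ B ∈ H, B.card = r)
    (hcov : ∀ A : Finset (Fin n), A.card = m → ∃ B ∈ H, B ⊆ A) :
    (1 + 5 / 10 ^ 10) * (n.choose r : ℝ) ≤ ((m - 1).choose (r - 1) : ℝ) * (H.card : ℝ) := by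
  have hI := ind_cx (show 1 ≤ r by omega) hH
  have hmn : m ≤ n := by omega
  have hrm : r < m := by omega
  -- a block
  obtain ⟨A, -, hA⟩ := Finset.exists_subset_card_eq (s := (univ : Finset (Fin n))) (n := m)
    (by rw [card_univ, Fintype.card_fin]; omega)
  obtain ⟨B, hB, -⟩ := hcov A hA
  have hBc := hH B hB
  obtain ⟨v, hv⟩ : B.Nonempty := by rw [← card_pos, hBc]; omega
  have hS : Ind H (B.erase v) := by
    intro C hC hCB
    have := card_le_card hCB
    rw [card_erase_of_mem hv, hBc, hH C hC] at this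
    omega
  have hbl : bl (Ind H) (B.erase v) v := by
    refine ⟨notMem_erase v B, fun h => h B hB (by rw [insert_erase hv])⟩
  have hα : ∀ S, Ind H S → S.card ≤ m - 1 := by
    intro S hSi
    by_contra hc
    rw [not_le] at hc
    obtain ⟨A, hAS, hA⟩ := Finset.exists_subset_card_eq (show m ≤ S.card by omega)
    obtain ⟨B, hB, hBA⟩ := hcov A hA
    exact hSi B hB (hBA.trans hAS)
  have h1 : (10 : ℝ) ^ 22 * ((r - 1 : ℕ) : ℝ) ≤ ((m - 1 : ℕ) : ℝ) := by exact_mod_cast hm
  have h2 : (10 : ℝ) ^ 12 * ((m - 1 : ℕ) : ℝ) ≤ (Fintype.card (Fin n) : ℝ) := by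
    rw [Fintype.card_fin]; exact_mod_cast hn
  have h := link hI (by omega) hS hbl hα h1 h2
  rw [Fintype.card_fin, lN_ind (by omega) hH] at h
  have h3 : lB (Ind H) (r - 1) ≤ r * (H.card : ℝ) := hh_le (by omega) hH
  have hC : (0 : ℝ) ≤ ((m - 1).choose (r - 1) : ℝ) := Nat.cast_nonneg _
  have h4 := mul_le_mul_of_nonneg_left h3 hC
  have h5 : (r : ℝ) * (n.choose r : ℝ) ≤ n * (n.choose (r - 1) : ℝ) := by
    have h6 : n.choose r * r = n.choose (r - 1) * (n - (r - 1)) := by
      have := Nat.choose_succ_right_eq n (r - 1)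
      rw [Nat.sub_add_cancel (by omega)] at this
      exact this
    have h7 : n.choose (r - 1) * (n - (r - 1)) ≤ n.choose (r - 1) * n :=
      Nat.mul_le_mul_left _ (Nat.sub_le _ _)
    have h8 : ((n.choose r * r : ℕ) : ℝ) ≤ ((n.choose (r - 1) * n : ℕ) : ℝ) := by
      rw [h6]; exact_mod_cast h7
    push_cast at h8
    linarith
  have hr0 : (0 : ℝ) < r := by
    have : 0 < r := by omega
    exact_mod_cast this
  have h9 : r * ((1 + 5 / 10 ^ 10) * (n.choose r : ℝ))
      ≤ r * (((m - 1).choose (r - 1) : ℝ) * (H.card : ℝ)) := by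
    have := mul_le_mul_of_nonneg_left h5 (show (0 : ℝ) ≤ 1 + 5 / 10 ^ 10 by norm_num)
    linarith
  exact le_of_mul_le_mul_left h9 hr0

open Pool.Agent.H120R2.Clique

/-- from families to the Turán function -/
theorem ex_le_of {n r m : ℕ} (hr : 1 ≤ r) (hm : r ≤ m) {β : ℝ}
    (hcov : ∀ H : Finset (Finset (Fin n)), (∀ B ∈ H, B.card = r) →
      (∀ A : Finset (Fin n), A.card = m → ∃ B ∈ H, B ⊆ A) → β ≤ (H.card : ℝ)) :
    (ex n r m : ℝ) ≤ (n.choose r : ℝ) - β := by
  classical
  obtain ⟨G, hG, hGc⟩ := exists_mem_eq_sup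
    ((((univ : Finset (Fin n)).powersetCard r).powerset).filter (fun G => ¬ HasClique G r m))
    ⟨∅, by
      rw [mem_filter, mem_powerset]
      refine ⟨empty_subset _, ?_⟩
      rintro ⟨A, hA, hAH⟩
      have : (A.powersetCard r).card = 0 := by
        rw [subset_empty.1 hAH]; rfl
      rw [card_powersetCard, hA] at this
      have h5 := Nat.choose_pos hm
      omega⟩ Finset.card
  rw [mem_filter, mem_powerset] at hG
  have hex : ex n r m = G.card := by
    unfold ex
    rw [← hGc]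
  set H : Finset (Finset (Fin n)) := (univ : Finset (Fin n)).powersetCard r \ G with hHdef
  have hHc : (H.card : ℝ) = (n.choose r : ℝ) - G.card := by
    rw [hHdef, card_sdiff_of_subset hG.1, Nat.cast_sub (card_le_card hG.1), card_powersetCard,
      card_univ, Fintype.card_fin]
  have h := hcov H (fun B hB => (mem_powersetCard.1 (mem_sdiff.1 hB).1).2) (by
    intro A hA
    by_contra hc
    push Not at hc
    apply hG.2
    refine ⟨A, hA, fun B hB => ?_⟩
    rw [mem_powersetCard] at hB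
    by_contra hBG
    exact hc B (mem_sdiff.2 ⟨mem_powersetCard.2 ⟨subset_univ _, hB.2⟩, hBG⟩) hB.1)
  rw [hex]
  rw [hHc] at h
  linarith

/-- the Turán function in the linear range -/
theorem ex_le {n r m : ℕ} (hr : 3 ≤ r) (hm : 10 ^ 22 * (r - 1) ≤ m - 1)
    (hn : 10 ^ 12 * (m - 1) ≤ n) :
    (ex n r m : ℝ) ≤ (1 - (1 + 5 / 10 ^ 10) / ((m - 1).choose (r - 1) : ℝ)) * (n.choose r : ℝ) := by
  have hrm : r < m := by omega
  have hC : (0 : ℝ) < ((m - 1).choose (r - 1) : ℝ) := by
    exact_mod_cast Nat.choose_pos (by omega)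
  have h := ex_le_of (n := n) (r := r) (m := m) (by omega) hrm.le
    (β := (1 + 5 / 10 ^ 10) / ((m - 1).choose (r - 1) : ℝ) * (n.choose r : ℝ))
    (fun H hH hcov => by
      have := blocks_ge hr hm hn hH hcov
      rw [div_mul_eq_mul_div, div_le_iff₀ hC]
      linarith)
  linarith

/-- the Turán density in the linear range -/
theorem density_le {r m : ℕ} (hr : 3 ≤ r) (hm : 10 ^ 22 * (r - 1) ≤ m - 1) :
    turanDensity r m ≤ 1 - (1 + 5 / 10 ^ 10) / ((m - 1).choose (r - 1) : ℝ) := by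
  refine le_of_tendsto (ratio_tendsto r m) ?_
  filter_upwards [eventually_ge_atTop (10 ^ 12 * (m - 1) + r)] with n hn
  have hch : 0 < (n.choose r : ℝ) := by
    exact_mod_cast Nat.choose_pos (show r ≤ n by omega)
  rw [div_le_iff₀ hch]
  exact ex_le hr hm (by omega)

/-- the gain of the starting library -/
theorem density_gain {r m : ℕ} (hr : 3 ≤ r) (hm : r < m) :
    turanDensity r m ≤ 1 - (1 + Pool.Agent.Y437.FC.gain r m) / ((m - 1).choose (r - 1) : ℝ) := by
  set α : ℝ := (1 + Pool.Agent.Y437.FC.gain r m) / ((m - 1).choose (r - 1) : ℝ) with hα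
  have hlim : Tendsto (fun n : ℕ => 1 - (α - (r : ℝ) * (r - 1) / 2 * (1 / (n : ℝ)))) atTop
      (𝓝 (1 - (α - (r : ℝ) * (r - 1) / 2 * 0))) := by
    refine tendsto_const_nhds.sub (tendsto_const_nhds.sub (tendsto_const_nhds.mul ?_))
    exact tendsto_const_div_atTop_nhds_zero_nat _
  rw [mul_zero, sub_zero] at hlim
  refine le_of_tendsto_of_tendsto (ratio_tendsto r m) hlim ?_
  filter_upwards [eventually_ge_atTop (r + 1)] with n hn
  have hch : 0 < (n.choose r : ℝ) := by
    exact_mod_cast Nat.choose_pos (show r ≤ n by omega)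
  have hn0 : (0 : ℝ) < n := by
    have : 0 < n := by omega
    exact_mod_cast this
  rw [div_le_iff₀ hch]
  have h := ex_le_of (n := n) (r := r) (m := m) (by omega) hm.le
    (β := (α - (r : ℝ) * (r - 1) / (2 * n)) * (n.choose r : ℝ))
    (fun H hH hcov => by
      refine Pool.Agent.Y437.FC.card_bound hr hm (by omega) (F := H) ?_
      intro K hK
      obtain ⟨T, hT1, hT2⟩ := hcov K hK
      exact ⟨T, hT1, hH T hT1, hT2⟩)
  have e : (1 - (α - (r : ℝ) * (r - 1) / 2 * (1 / (n : ℝ)))) * (n.choose r : ℝ)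
      = (n.choose r : ℝ) - (α - (r : ℝ) * (r - 1) / (2 * n)) * (n.choose r : ℝ) := by
    field_simp
  rw [e]
  exact h

/-- the constant factor away from the integral ratios -/
theorem density_unif {η : ℝ} (hη : 0 < η) : ∃ c : ℝ, 0 < c ∧ ∀ r m : ℕ, 3 ≤ r →
    (1 + η) * (r : ℝ) ≤ m → (∀ j : ℕ, 1 ≤ j → η ≤ |((r : ℝ) - 2) / (m - r) - j|) →
    turanDensity r m ≤ 1 - (1 + c) / ((m - 1).choose (r - 1) : ℝ) := by
  set ρ0 : ℝ := 1 / (2 * 10 ^ 22) with hρ0
  have hρ0p : 0 < ρ0 := by rw [hρ0]; norm_num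
  set g : ℝ := ρ0 * min η ρ0 / (4 * (1 + 1 / η) ^ 2 * (2 + 1 / η) * (3 + 1 / η)) with hg
  have hg0 : 0 < g := by
    rw [hg]
    have : 0 < min η ρ0 := lt_min hη hρ0p
    positivity
  refine ⟨min (5 / 10 ^ 10) g, lt_min (by norm_num) hg0, ?_⟩
  intro r m hr hm hj
  have hrR : (3 : ℝ) ≤ r := by exact_mod_cast hr
  have hrm' : (r : ℝ) < m := by
    have : 0 < η * r := by positivity
    linarith
  have hrm : r < m := by exact_mod_cast hrm'
  have hC : (0 : ℝ) < ((m - 1).choose (r - 1) : ℝ) := by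
    exact_mod_cast Nat.choose_pos (by omega)
  set ρ : ℝ := ((r : ℝ) - 2) / (m - r) with hρ
  have hd : 0 < (m : ℝ) - r := by linarith
  have hρp : 0 < ρ := by rw [hρ]; apply div_pos _ hd; linarith
  have hρη : ρ ≤ 1 / η := by
    rw [hρ, div_le_div_iff₀ hd hη]
    nlinarith
  rcases lt_or_ge ρ ρ0 with h | h
  · -- large `m`
    have h1 : 10 ^ 22 * (r - 1) ≤ m - 1 := by
      have h2 : (r : ℝ) - 2 < ρ0 * (m - r) := by
        rw [hρ, div_lt_iff₀ hd] at h; exact h
      have h3 : (10 : ℝ) ^ 22 * (r - 1) ≤ m - 1 := by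
        rw [hρ0, one_div, inv_mul_eq_div, lt_div_iff₀ (by norm_num)] at h2
        have : (r : ℝ) - 1 ≤ 2 * (r - 2) := by linarith
        have h4 : (10 : ℝ) ^ 22 * (r - 1) ≤ 10 ^ 22 * (2 * (r - 2)) :=
          mul_le_mul_of_nonneg_left this (by norm_num)
        linarith
      have e1 : ((r - 1 : ℕ) : ℝ) = r - 1 := by rw [Nat.cast_sub (by omega)]; push_cast; ring
      have e2 : ((m - 1 : ℕ) : ℝ) = m - 1 := by rw [Nat.cast_sub (by omega)]; push_cast; ring
      rw [← e1, ← e2] at h3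
      exact_mod_cast h3
    refine le_trans (density_le hr h1) ?_
    have : (1 + min (5 / 10 ^ 10) g) / ((m - 1).choose (r - 1) : ℝ)
        ≤ (1 + 5 / 10 ^ 10) / ((m - 1).choose (r - 1) : ℝ) :=
      div_le_div_of_nonneg_right (by linarith [min_le_left (5 / 10 ^ 10 : ℝ) g]) hC.le
    linarith
  · -- the starting library
    have h1 := Pool.Agent.Y437.FC.gain_ge hr hrm ρ hρ
    have h2 : min η ρ0 ≤ |ρ - round ρ| := by
      have hr0 : (0 : ℤ) ≤ round ρ := by
        rw [round_eq]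
        apply Int.floor_nonneg.2
        linarith
      rcases eq_or_lt_of_le hr0 with h3 | h3
      · rw [← h3, Int.cast_zero, sub_zero, abs_of_pos hρp]
        exact le_trans (min_le_right _ _) h
      · obtain ⟨j, hj2⟩ := Int.eq_ofNat_of_zero_le hr0
        have h4 := hj j (by omega)
        rw [hj2]
        push_cast
        exact le_trans (min_le_left _ _) h4
    have h3 : g ≤ Pool.Agent.Y437.FC.gain r m := by
      refine le_trans ?_ h1
      rw [hg]
      have hm0 : 0 < min η ρ0 := lt_min hη hρ0p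
      apply div_le_div₀
      · exact mul_nonneg hρp.le (abs_nonneg _)
      · exact mul_le_mul h h2 hm0.le hρp.le
      · positivity
      · have a1 : (1 + ρ) ^ 2 ≤ (1 + 1 / η) ^ 2 := pow_le_pow_left₀ (by positivity) (by linarith) 2
        have a2 : 4 * (1 + ρ) ^ 2 * (2 + ρ) ≤ 4 * (1 + 1 / η) ^ 2 * (2 + 1 / η) :=
          mul_le_mul (by linarith) (by linarith) (by positivity) (by positivity)
        exact mul_le_mul a2 (by linarith) (by positivity) (by positivity)
    refine le_trans (density_gain hr hrm) ?_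
    have : (1 + min (5 / 10 ^ 10) g) / ((m - 1).choose (r - 1) : ℝ)
        ≤ (1 + Pool.Agent.Y437.FC.gain r m) / ((m - 1).choose (r - 1) : ℝ) :=
      div_le_div_of_nonneg_right (by linarith [min_le_right (5 / 10 ^ 10 : ℝ) g]) hC.le
    linarith

/-- all `m ≥ (2 + η) r` -/
theorem density_two {η : ℝ} (hη : 0 < η) : ∃ c : ℝ, 0 < c ∧ ∀ r m : ℕ, 3 ≤ r →
    (2 + η) * (r : ℝ) ≤ m →
    turanDensity r m ≤ 1 - (1 + c) / ((m - 1).choose (r - 1) : ℝ) := by
  set η' : ℝ := η / (1 + η) with hη'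
  have h0 : 0 < η' := by rw [hη']; positivity
  have h01 : η' < 1 := by rw [hη', div_lt_one (by positivity)]; linarith
  obtain ⟨c, hc, h⟩ := density_unif h0
  refine ⟨c, hc, fun r m hr hm => h r m hr ?_ ?_⟩
  · have hrR : (3 : ℝ) ≤ r := by exact_mod_cast hr
    nlinarith
  · intro j hj
    have hrR : (3 : ℝ) ≤ r := by exact_mod_cast hr
    have hjR : (1 : ℝ) ≤ j := by exact_mod_cast hj
    have hd : (1 + η) * (r : ℝ) ≤ (m : ℝ) - r := by linarith
    have hd0 : 0 < (m : ℝ) - r := lt_of_lt_of_le (by positivity) hd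
    have h1 : ((r : ℝ) - 2) / (m - r) ≤ 1 - η' := by
      rw [div_le_iff₀ hd0]
      have e : 1 - η' = 1 / (1 + η) := by rw [hη']; field_simp; ring
      rw [e, div_mul_eq_mul_div, le_div_iff₀ (by positivity)]
      nlinarith
    rw [abs_sub_comm]
    refine le_trans ?_ (le_abs_self _)
    linarith

end Pool.Agent.J6H90.DL
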